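import Mathlib

/-!
# Trees and covering maps: parents, sides of an edge, deck transformations
-/

set_option autoImplicit false

namespace Pool.Agent.H655.RG

open SimpleGraph

section Tree

variable {V : Type} {T : SimpleGraph V} (hT : T.IsTree)
include hT

theorem parent_exists (x v : V) (h : v ≠ x) :
    ∃ w, T.Adj v w ∧ T.dist x v = T.dist x w + 1 := by
  obtain ⟨p, hp⟩ := hT.connected.exists_walk_length_eq_dist v x
  cases p with
  | nil => exact absurd rfl h
  | cons h1 q =>
    rename_i w
    refine ⟨w, h1, ?_⟩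
    have h2 := T.dist_le q
    have h3 := (hT.connected).dist_triangle (u := x) (v := w) (w := v)
    have h4 : T.dist w v = 1 := SimpleGraph.dist_eq_one_iff_adj.2 h1.symm
    rw [Walk.length_cons] at hp
    rw [T.dist_comm (u := w) (v := x)] at h2
    rw [T.dist_comm (u := v) (v := x)] at hp
    omega

theorem parent_unique {x v w₁ w₂ : V} (h₁ : T.Adj v w₁) (h₂ : T.Adj v w₂)
    (d₁ : T.dist x v = T.dist x w₁ + 1) (d₂ : T.dist x v = T.dist x w₂ + 1) : w₁ = w₂ := by
  obtain ⟨p, hp⟩ := hT.connected.exists_walk_length_eq_dist x w₁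
  obtain ⟨q, hq⟩ := hT.connected.exists_walk_length_eq_dist x w₂
  have hp' : (p.concat h₁.symm).IsPath :=
    Walk.isPath_of_length_eq_dist _ (by rw [Walk.length_concat, hp, d₁])
  have hq' : (q.concat h₂.symm).IsPath :=
    Walk.isPath_of_length_eq_dist _ (by rw [Walk.length_concat, hq, d₂])
  have h3 := (hT.existsUnique_path x v).unique hp' hq'
  have h4 := congrArg Walk.penultimate h3
  simpa using h4

/-- The vertices which are nearer to `y` than to `x`. -/
def side (T : SimpleGraph V) (x y : V) : Set V := {v | T.dist v y < T.dist v x}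

omit hT in
theorem mem_side {x y v : V} : v ∈ side T x y ↔ T.dist v y < T.dist v x := Iff.rfl

theorem not_mem_side {x y v : V} (h : T.Adj x y) : v ∉ side T x y ↔ v ∈ side T y x := by
  rw [mem_side, mem_side]
  rcases hT.dist_eq_dist_add_one_of_adj v h with h1 | h1 <;> omega

theorem cross {x y v v' : V} (h : T.Adj x y) (h1 : T.Adj v v') (hv : v ∈ side T x y)
    (hv' : v' ∉ side T x y) : v = y ∧ v' = x := by
  rw [mem_side] at hv hv'
  have e1 := hT.dist_eq_dist_add_one_of_adj v h
  have e2 := hT.dist_eq_dist_add_one_of_adj v' h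
  have e3 := hT.dist_eq_dist_add_one_of_adj x h1
  have e4 := hT.dist_eq_dist_add_one_of_adj y h1
  rw [T.dist_comm (u := v) (v := x), T.dist_comm (u := v) (v := y)] at e1 hv
  rw [T.dist_comm (u := v') (v := x), T.dist_comm (u := v') (v := y)] at e2 hv'
  by_cases hvy : v = y
  · subst hvy
    refine ⟨rfl, ?_⟩
    have : T.dist x v' = 0 := by
      rw [T.dist_self] at e1 e4 hv
      omega
    exact ((hT.connected.dist_eq_zero_iff).1 this).symm
  · exfalso
    obtain ⟨w, hw1, hw2⟩ := parent_exists hT y v hvy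
    have h5 : T.dist x w ≤ T.dist x y + T.dist y w := hT.connected.dist_triangle
    have h6 : T.dist x y = 1 := SimpleGraph.dist_eq_one_iff_adj.2 h
    have h7 := hT.dist_eq_dist_add_one_of_adj x hw1
    have h8 : w = v' := parent_unique hT (x := x) hw1 h1 (by omega) (by omega)
    subst h8
    omega

theorem side_adj_self {x y : V} (h : T.Adj x y) : y ∈ side T x y ∧ x ∉ side T x y := by
  rw [mem_side, mem_side, T.dist_self, T.dist_self]
  have : T.dist y x = 1 := SimpleGraph.dist_eq_one_iff_adj.2 h.symm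
  omega

/-- Every vertex other than `x` is in exactly one branch at `x`. -/
theorem branch_exists {x v : V} (h : v ≠ x) : ∃ y, T.Adj x y ∧ v ∈ side T x y := by
  obtain ⟨w, h1, h2⟩ := parent_exists hT v x h.symm
  exact ⟨w, h1, by rw [mem_side]; omega⟩

theorem branch_unique {x v y₁ y₂ : V} (h₁ : T.Adj x y₁) (h₂ : T.Adj x y₂)
    (s₁ : v ∈ side T x y₁) (s₂ : v ∈ side T x y₂) : y₁ = y₂ := by
  rw [mem_side] at s₁ s₂
  have e1 := hT.dist_eq_dist_add_one_of_adj v h₁
  have e2 := hT.dist_eq_dist_add_one_of_adj v h₂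
  exact parent_unique hT (x := v) h₁ h₂ (by omega) (by omega)

end Tree

section Cover

variable {V B : Type} {K : SimpleGraph B} {T : SimpleGraph V} {ξ : V → B}

/-- `ξ` is a covering map of graphs: it maps the neighbours of `x` bijectively to those of `ξ x`. -/
def IsCover (K : SimpleGraph B) (T : SimpleGraph V) (ξ : V → B) : Prop :=
  ∀ x, Set.BijOn ξ (T.neighborSet x) (K.neighborSet (ξ x))

open Classical in
/-- The neighbour of `x` over `k`. -/
noncomputable def nb (K : SimpleGraph B) (T : SimpleGraph V) (ξ : V → B) (x : V) (k : B) : V :=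
  if h : ∃ y, T.Adj x y ∧ ξ y = k then h.choose else x

theorem nb_spec (hc : IsCover K T ξ) {x : V} {k : B} (h : K.Adj (ξ x) k) :
    T.Adj x (nb K T ξ x k) ∧ ξ (nb K T ξ x k) = k := by
  have h1 : ∃ y, T.Adj x y ∧ ξ y = k := by
    obtain ⟨y, hy, rfl⟩ := (hc x).surjOn h
    exact ⟨y, hy, rfl⟩
  rw [nb, dif_pos h1]
  exact h1.choose_spec

theorem adj_map (hc : IsCover K T ξ) {x y : V} (h : T.Adj x y) : K.Adj (ξ x) (ξ y) :=
  (hc x).mapsTo h

theorem adj_inj (hc : IsCover K T ξ) {x y z : V} (h : T.Adj x y) (h' : T.Adj x z)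
    (e : ξ y = ξ z) : y = z := (hc x).injOn h h' e

theorem nb_eq (hc : IsCover K T ξ) {x y : V} (h : T.Adj x y) : nb K T ξ x (ξ y) = y := by
  obtain ⟨h1, h2⟩ := nb_spec hc (adj_map hc h)
  exact adj_inj hc h1 h h2

variable (hT : T.IsTree) (hc : IsCover K T ξ)
include hT hc

theorem lift_exists (x x' : V) (h : ξ x = ξ x') : ∃ φ : V → V, φ x = x' ∧ (∀ v, ξ (φ v) = ξ v) ∧
    ∀ v w, T.Adj v w → T.Adj (φ v) (φ w) := by
  classical
  have hpar : ∀ v, ∃ w, v ≠ x → T.Adj v w ∧ T.dist x v = T.dist x w + 1 := by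
    intro v
    by_cases hv : v = x
    · exact ⟨x, fun h => absurd hv h⟩
    · obtain ⟨w, hw⟩ := parent_exists hT x v hv
      exact ⟨w, fun _ => hw⟩
  choose par hpar using hpar
  let L : ℕ → V → V := fun n => Nat.rec (fun _ => x') (fun _ f v => nb K T ξ (f (par v)) (ξ v)) n
  let φ : V → V := fun v => L (T.dist x v) v
  have hx : φ x = x' := by
    change L (T.dist x x) x = x'
    rw [T.dist_self]
    rfl
  have hstep : ∀ v, v ≠ x → φ v = nb K T ξ (φ (par v)) (ξ v) := by
    intro v hv
    change L (T.dist x v) v = nb K T ξ (L (T.dist x (par v)) (par v)) (ξ v)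
    rw [(hpar v hv).2]
  have hξ : ∀ n v, T.dist x v = n → ξ (φ v) = ξ v := by
    intro n
    induction n with
    | zero =>
      intro v hv
      have : x = v := (hT.connected.dist_eq_zero_iff).1 hv
      subst this
      rw [hx, h]
    | succ n ih =>
      intro v hv
      have hvx : v ≠ x := by
        rintro rfl
        rw [T.dist_self] at hv
        omega
      rw [hstep v hvx]
      have h1 := ih (par v) (by have := (hpar v hvx).2; omega)
      refine (nb_spec hc ?_).2
      rw [h1]
      exact (adj_map hc (hpar v hvx).1).symm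
  have key : ∀ v w, T.Adj v w → T.dist x v = T.dist x w + 1 → T.Adj (φ v) (φ w) := by
    intro v w hvw hd
    have hvx : v ≠ x := by
      rintro rfl
      rw [T.dist_self] at hd
      omega
    have hw : par v = w := parent_unique hT (hpar v hvx).1 hvw (hpar v hvx).2 hd
    rw [hstep v hvx, hw]
    refine (nb_spec hc ?_).1.symm
    rw [hξ _ w rfl]
    exact (adj_map hc hvw).symm
  refine ⟨φ, hx, fun v => hξ _ v rfl, fun v w hvw => ?_⟩
  rcases hT.dist_eq_dist_add_one_of_adj x hvw with h1 | h1
  · exact key v w hvw h1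
  · exact (key w v hvw.symm h1).symm

theorem lift_id (x : V) (M : V → V) (hx : M x = x) (h1 : ∀ v, ξ (M v) = ξ v)
    (h2 : ∀ v w, T.Adj v w → T.Adj (M v) (M w)) : ∀ v, M v = v := by
  have : ∀ n v, T.dist x v = n → M v = v := by
    intro n
    induction n with
    | zero =>
      intro v hv
      have : x = v := (hT.connected.dist_eq_zero_iff).1 hv
      subst this
      exact hx
    | succ n ih =>
      intro v hv
      have hvx : v ≠ x := by
        rintro rfl
        rw [T.dist_self] at hv
        omega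
      obtain ⟨w, hw1, hw2⟩ := parent_exists hT x v hvx
      have h3 := ih w (by omega)
      have h4 := h2 w v hw1.symm
      rw [h3] at h4
      exact adj_inj hc h4 hw1.symm (h1 v)
  exact fun v => this _ v rfl

/-- The deck transformations are transitive on the fibres. -/
theorem deck (x x' : V) (h : ξ x = ξ x') : ∃ φ : T ≃g T, φ x = x' ∧ ∀ v, ξ (φ v) = ξ v := by
  obtain ⟨f, f1, f2, f3⟩ := lift_exists hT hc x x' h
  obtain ⟨g, g1, g2, g3⟩ := lift_exists hT hc x' x h.symm
  have e1 := lift_id hT hc x (fun v => g (f v)) (by simp [f1, g1]) (fun v => by rw [g2, f2])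
    (fun v w hvw => g3 _ _ (f3 _ _ hvw))
  have e2 := lift_id hT hc x' (fun v => f (g v)) (by simp [f1, g1]) (fun v => by rw [f2, g2])
    (fun v w hvw => f3 _ _ (g3 _ _ hvw))
  refine ⟨⟨⟨f, g, e1, e2⟩, fun {v w} => ⟨fun h3 => ?_, fun h3 => f3 _ _ h3⟩⟩, f1, f2⟩
  have h4 := g3 _ _ h3
  simp only [Equiv.coe_fn_mk] at h4
  rw [e1, e1] at h4
  exact h4

end Cover

section IsoDist

variable {V : Type} {T : SimpleGraph V}

theorem iso_dist_le (hT : T.IsTree) (φ : T ≃g T) (v w : V) : T.dist (φ v) (φ w) ≤ T.dist v w := by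
  obtain ⟨p, hp⟩ := hT.connected.exists_walk_length_eq_dist v w
  have := T.dist_le (p.map φ.toHom)
  rw [Walk.length_map, hp] at this
  exact this

theorem iso_dist (hT : T.IsTree) (φ : T ≃g T) (v w : V) : T.dist (φ v) (φ w) = T.dist v w := by
  refine le_antisymm (iso_dist_le hT φ v w) ?_
  have := iso_dist_le hT φ.symm (φ v) (φ w)
  simpa using this

theorem iso_side (hT : T.IsTree) (φ : T ≃g T) (x y v : V) :
    φ v ∈ side T (φ x) (φ y) ↔ v ∈ side T x y := by
  rw [mem_side, mem_side, iso_dist hT, iso_dist hT]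

end IsoDist

end Pool.Agent.H655.RG
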