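import Pool.Agent.H655.RG1

/-!
# Square summable solutions of a periodic Jacobi equation on a tree
-/

set_option autoImplicit false

namespace Pool.Agent.H655.RG

open SimpleGraph

/-- A finite graph `K`, a covering `ξ : T → K` by a tree and Jacobi coefficients (with the
spectral parameter subtracted from the potential). -/
structure Data (V B : Type) [Fintype B] where
  K : SimpleGraph B
  T : SimpleGraph V
  ξ : V → B
  a : B → B → ℝ
  c : B → ℝ
  hT : T.IsTree
  hc : IsCover K T ξ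
  apos : ∀ k l, K.Adj k l → 0 < a k l
  asymm : ∀ k l, a k l = a l k

namespace Data

variable {V B : Type} [Fintype B] (D : Data V B)

open Classical in
/-- The neighbours in the base graph. -/
noncomputable def N (k : B) : Finset B := Finset.univ.filter (fun l => D.K.Adj k l)

theorem mem_N {k l : B} : l ∈ D.N k ↔ D.K.Adj k l := by
  simp [N]

/-- The neighbour of `x` over `k`. -/
noncomputable def n (x : V) (k : B) : V := nb D.K D.T D.ξ x k

theorem n_adj {x : V} {k : B} (h : D.K.Adj (D.ξ x) k) : D.T.Adj x (D.n x k) := (nb_spec D.hc h).1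
theorem n_map {x : V} {k : B} (h : D.K.Adj (D.ξ x) k) : D.ξ (D.n x k) = k := (nb_spec D.hc h).2
theorem n_eq {x y : V} (h : D.T.Adj x y) : D.n x (D.ξ y) = y := nb_eq D.hc h
theorem n_n {x : V} {k : B} (h : D.K.Adj (D.ξ x) k) : D.n (D.n x k) (D.ξ x) = x :=
  D.n_eq (D.n_adj h).symm

/-- A square summable solution of the equation. -/
def Sol (u : V → ℝ) : Prop := Summable (fun v => u v ^ 2) ∧
  ∀ x, D.c (D.ξ x) * u x + ∑ k ∈ D.N (D.ξ x), D.a (D.ξ x) k * u (D.n x k) = 0

theorem summable_mul {u w : V → ℝ} (hu : Summable (fun v => u v ^ 2))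
    (hw : Summable (fun v => w v ^ 2)) : Summable (fun v => u v * w v) := by
  refine Summable.of_norm_bounded (hu.add hw) fun v => ?_
  rw [Real.norm_eq_abs, abs_mul]
  nlinarith [sq_nonneg (|u v| - |w v|), sq_abs (u v), sq_abs (w v), sq_nonneg (u v), sq_nonneg (w v)]

theorem Sol.comb {u w : V → ℝ} (hu : D.Sol u) (hw : D.Sol w) (s : ℝ) :
    D.Sol (fun v => u v + s * w v) := by
  refine ⟨?_, fun x => ?_⟩
  · have h1 : (fun v => (u v + s * w v) ^ 2) =
        fun v => u v ^ 2 + 2 * s * (u v * w v) + s ^ 2 * w v ^ 2 := by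
      funext v
      ring
    rw [h1]
    exact (hu.1.add ((summable_mul hu.1 hw.1).mul_left _)).add (hw.1.mul_left _)
  · have h1 := hu.2 x
    have h2 := hw.2 x
    have h3 : ∑ k ∈ D.N (D.ξ x), D.a (D.ξ x) k * (u (D.n x k) + s * w (D.n x k)) =
        ∑ k ∈ D.N (D.ξ x), D.a (D.ξ x) k * u (D.n x k) +
        s * ∑ k ∈ D.N (D.ξ x), D.a (D.ξ x) k * w (D.n x k) := by
      rw [Finset.mul_sum, ← Finset.sum_add_distrib]
      refine Finset.sum_congr rfl fun k _ => by ring
    rw [h3]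
    linear_combination h1 + s * h2

theorem exists_repr : ∃ e : V → V → ℝ, (∀ x, D.Sol (e x)) ∧
    ∀ x u, D.Sol u → ∑' v, e x v * u v = u x := by
  classical
  let E := lp (fun _ : V => ℝ) 2
  let ev : V → E →L[ℝ] ℝ := fun x => lp.evalCLM ℝ (fun _ : V => ℝ) 2 x
  let F : V → E →L[ℝ] ℝ := fun x =>
    D.c (D.ξ x) • ev x + ∑ k ∈ D.N (D.ξ x), D.a (D.ξ x) k • ev (D.n x k)
  let S : Submodule ℝ E := ⨅ x, LinearMap.ker (F x).toLinearMap
  have hS : IsClosed (S : Set E) := by
    rw [Submodule.coe_iInf]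
    exact isClosed_iInter fun x => (F x).isClosed_ker
  have : CompleteSpace S := hS.completeSpace_coe
  have hF : ∀ x (f : E), F x f = D.c (D.ξ x) * f x +
      ∑ k ∈ D.N (D.ξ x), D.a (D.ξ x) k * f (D.n x k) := by
    intro x f
    simp only [F, ev, add_apply, smul_apply, sum_apply, smul_eq_mul]
    rfl
  have hmem : ∀ f : E, f ∈ S ↔ ∀ x, F x f = 0 := by
    intro f
    simp [S, Submodule.mem_iInf]
  have hsum : ∀ f : E, Summable (fun v => (f v : ℝ) ^ 2) := by
    intro f
    have := (memℓp_gen_iff (p := 2) (by norm_num)).1 (lp.memℓp f)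
    simpa using this
  let e : V → S := fun x => (InnerProductSpace.toDual ℝ S).symm ((ev x).comp S.subtypeL)
  refine ⟨fun x v => (e x : E) v, fun x => ⟨hsum _, fun y => ?_⟩, fun x u hu => ?_⟩
  · have := (hmem _).1 (e x).2 y
    rwa [hF] at this
  · have hm : Memℓp u 2 := by
      refine memℓp_gen ?_
      simpa using hu.1
    let f : E := ⟨u, hm⟩
    have hf : f ∈ S := by
      rw [hmem]
      intro y
      rw [hF]
      exact hu.2 y
    have h1 := InnerProductSpace.toDual_symm_apply (𝕜 := ℝ) (E := S) (x := ⟨f, hf⟩)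
      (y := (ev x).comp S.subtypeL)
    rw [Submodule.coe_inner, lp.inner_eq_tsum] at h1
    have h2 : ((ev x).comp S.subtypeL) ⟨f, hf⟩ = u x := rfl
    rw [h2] at h1
    rw [← h1]
    refine tsum_congr fun v => ?_
    simp [e, f, mul_comm]

/-- The reproducing kernel of the space of solutions. -/
noncomputable def e : V → V → ℝ := D.exists_repr.choose

theorem e_sol (x : V) : D.Sol (D.e x) := D.exists_repr.choose_spec.1 x

theorem e_repr (x : V) {u : V → ℝ} (hu : D.Sol u) : ∑' v, D.e x v * u v = u x :=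
  D.exists_repr.choose_spec.2 x u hu

theorem e_symm (x y : V) : D.e x y = D.e y x := by
  rw [← D.e_repr x (D.e_sol y), ← D.e_repr y (D.e_sol x)]
  exact tsum_congr fun v => mul_comm _ _

theorem e_unique {x : V} {f : V → ℝ} (hf : D.Sol f)
    (h : ∀ u, D.Sol u → ∑' v, f v * u v = u x) (y : V) : f y = D.e x y := by
  rw [← D.e_repr y hf, e_symm, ← h _ (D.e_sol y)]
  exact tsum_congr fun v => mul_comm _ _

/-- The diagonal of the kernel. -/
noncomputable def p (x : V) : ℝ := D.e x x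

theorem p_eq (x : V) : D.p x = ∑' v, D.e x v ^ 2 := by
  rw [p, ← D.e_repr x (D.e_sol x)]
  exact tsum_congr fun v => by ring

theorem p_nonneg (x : V) : 0 ≤ D.p x := by
  rw [p_eq]
  exact tsum_nonneg fun v => sq_nonneg _

theorem e_eq_zero {x : V} (h : D.p x = 0) (v : V) : D.e x v = 0 := by
  rw [p_eq] at h
  have h1 := (hasSum_zero_iff_of_nonneg (fun v => sq_nonneg (D.e x v))).1
    (by rw [← h]; exact (D.e_sol x).1.hasSum)
  have h2 := congrFun h1 v
  exact pow_eq_zero_iff (two_ne_zero) |>.1 h2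

theorem sol_eq_zero {x : V} (h : D.p x = 0) {u : V → ℝ} (hu : D.Sol u) : u x = 0 := by
  rw [← D.e_repr x hu]
  simp [D.e_eq_zero h]

open Classical in
/-- The mass of `f ^ 2` on the set `A`. -/
noncomputable def mass (f : V → ℝ) (A : Set V) : ℝ := ∑' v, if v ∈ A then f v ^ 2 else 0

theorem mass_summable {f : V → ℝ} (hf : Summable (fun v => f v ^ 2)) (A : Set V) [DecidablePred (· ∈ A)] :
    Summable (fun v => if v ∈ A then f v ^ 2 else 0) := by
  refine Summable.of_nonneg_of_le (fun v => ?_) (fun v => ?_) hf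
  · split_ifs
    · exact sq_nonneg _
    · exact le_rfl
  · split_ifs
    · exact le_rfl
    · exact sq_nonneg _

theorem mass_compl {f : V → ℝ} (hf : Summable (fun v => f v ^ 2)) (A A' : Set V)
    (h : ∀ v, v ∉ A ↔ v ∈ A') : mass f A + mass f A' = ∑' v, f v ^ 2 := by
  classical
  unfold mass
  have h1 := (mass_summable hf A).tsum_add (mass_summable hf A')
  rw [show (fun v => ite (v ∈ A) (f v ^ 2) 0 + ite (v ∈ A') (f v ^ 2) 0) = fun v => f v ^ 2 from ?_] at h1
  · convert h1.symm using 3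
  · funext v
    by_cases hv : v ∈ A
    · have : v ∉ A' := fun h2 => (h v).2 h2 hv
      simp [hv, this]
    · have : v ∈ A' := (h v).1 hv
      simp [hv, this]

/-- The mass of `e x` beyond the neighbour `y` of `x`. -/
noncomputable def M (x y : V) : ℝ := mass (D.e x) (side D.T x y)

/-- Deck transformations preserve the kernel. -/
theorem e_inv (φ : D.T ≃g D.T) (hφ : ∀ v, D.ξ (φ v) = D.ξ v) (x v : V) :
    D.e (φ x) (φ v) = D.e x v := by
  have hn : ∀ (ψ : D.T ≃g D.T), (∀ v, D.ξ (ψ v) = D.ξ v) → ∀ x k, D.K.Adj (D.ξ x) k →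
      D.n (ψ x) k = ψ (D.n x k) := by
    intro ψ hψ x k hk
    have h1 := (ψ.map_adj_iff).2 (D.n_adj hk)
    have h2 := D.n_eq h1
    rw [hψ, D.n_map hk] at h2
    exact h2
  have hs : ∀ (ψ : D.T ≃g D.T), (∀ v, D.ξ (ψ v) = D.ξ v) → ∀ u, D.Sol u →
      D.Sol (fun v => u (ψ v)) := by
    intro ψ hψ u hu
    refine ⟨(ψ.toEquiv.summable_iff (f := fun v => u v ^ 2)).2 hu.1, fun x => ?_⟩
    have h1 := hu.2 (ψ x)
    rw [hψ] at h1
    rw [← h1]
    congr 1
    refine Finset.sum_congr rfl fun k hk => ?_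
    rw [hn ψ hψ x k (D.mem_N.1 hk)]
  refine D.e_unique (hs φ hφ _ (D.e_sol (φ x))) (fun u hu => ?_) v
  have hφ' : ∀ v, D.ξ (φ.symm v) = D.ξ v := by
    intro v
    rw [← hφ (φ.symm v)]
    simp
  have h2 := D.e_repr (φ x) (hs φ.symm hφ' u hu)
  have h3 := (φ.toEquiv.tsum_eq (fun v => D.e (φ x) v * u (φ.symm v)))
  rw [h2] at h3
  simpa using h3

theorem p_inv (φ : D.T ≃g D.T) (hφ : ∀ v, D.ξ (φ v) = D.ξ v) (x : V) : D.p (φ x) = D.p x :=
  D.e_inv φ hφ x x

theorem M_inv (φ : D.T ≃g D.T) (hφ : ∀ v, D.ξ (φ v) = D.ξ v) (x y : V) :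
    D.M (φ x) (φ y) = D.M x y := by
  classical
  unfold M mass
  rw [← φ.toEquiv.tsum_eq]
  refine tsum_congr fun v => ?_
  have h1 : (φ.toEquiv v ∈ side D.T (φ x) (φ y)) ↔ v ∈ side D.T x y := iso_side D.hT φ x y v
  have h2 : D.e (φ x) (φ.toEquiv v) = D.e x v := D.e_inv φ hφ x v
  rw [h2]
  by_cases h : v ∈ side D.T x y
  · rw [if_pos h, if_pos (h1.2 h)]
  · rw [if_neg h, if_neg (fun h3 => h (h1.1 h3))]

/-- The values of `p` depend only on the vertex of the base graph. -/
theorem p_fiber {x x' : V} (h : D.ξ x = D.ξ x') : D.p x = D.p x' := by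
  obtain ⟨φ, h1, h2⟩ := deck D.hT D.hc x x' h
  rw [← h1, D.p_inv φ h2]

theorem M_fiber {x x' : V} (h : D.ξ x = D.ξ x') {k : B} (hk : D.K.Adj (D.ξ x) k) :
    D.M x (D.n x k) = D.M x' (D.n x' k) := by
  obtain ⟨φ, h1, h2⟩ := deck D.hT D.hc x x' h
  have h3 := (φ.map_adj_iff).2 (D.n_adj hk)
  have h4 := D.n_eq h3
  rw [h2, D.n_map hk, h1] at h4
  rw [h4, ← h1, D.M_inv φ h2]

theorem branch_sum {f : V → ℝ} (hf : Summable (fun v => f v ^ 2)) (x : V) :
    ∑ k ∈ D.N (D.ξ x), mass f (side D.T x (D.n x k)) = ∑' v, f v ^ 2 - f x ^ 2 := by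
  classical
  unfold mass
  rw [← Summable.tsum_finsetSum]
  · have h1 : ∀ v, (∑ k ∈ D.N (D.ξ x), if v ∈ side D.T x (D.n x k) then f v ^ 2 else 0) =
        f v ^ 2 - if v = x then f x ^ 2 else 0 := by
      intro v
      by_cases hv : v = x
      · subst hv
        rw [if_pos rfl, sub_self]
        refine Finset.sum_eq_zero fun k hk => ?_
        rw [if_neg (side_adj_self D.hT (D.n_adj (D.mem_N.1 hk))).2]
      · rw [if_neg hv, sub_zero]
        obtain ⟨y, hy, hy'⟩ := branch_exists D.hT hv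
        have hk : D.ξ y ∈ D.N (D.ξ x) := D.mem_N.2 (adj_map D.hc hy)
        rw [Finset.sum_eq_single_of_mem _ hk]
        · rw [D.n_eq hy, if_pos hy']
        · intro l hl hne
          refine if_neg fun h3 => hne ?_
          have h4 := branch_unique D.hT (D.n_adj (D.mem_N.1 hl)) hy h3 hy'
          rw [← h4, D.n_map (D.mem_N.1 hl)]
    have h2 : (fun v => ∑ k ∈ D.N (D.ξ x), if v ∈ side D.T x (D.n x k) then f v ^ 2 else 0) =
        fun v => f v ^ 2 - if v = x then f x ^ 2 else 0 := funext h1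
    have h3 : HasSum (fun v => if v = x then f x ^ 2 else 0) (f x ^ 2) := by
      have := hasSum_ite_eq x (f x ^ 2)
      exact this
    have h4 := (hf.hasSum.sub h3).tsum_eq
    rw [← h4]
    refine tsum_congr fun v => ?_
    rw [← h1 v]
  · intro k _
    exact mass_summable hf _

theorem F1 (x : V) : ∑ k ∈ D.N (D.ξ x), D.M x (D.n x k) = D.p x - D.p x ^ 2 := by
  have h := D.branch_sum (D.e_sol x).1 x
  rw [← D.p_eq x] at h
  exact h

end Data

end Pool.Agent.H655.RG
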