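import Pool.Agent.H655.RG2

/-!
# Wronskian identity, and the relations between the masses of the kernel
-/

set_option autoImplicit false

namespace Pool.Agent.H655.RG

open SimpleGraph

namespace Data

variable {V B : Type} [Fintype B] (D : Data V B)

theorem wronskian {u w : V → ℝ} (hu : D.Sol u) (hw : D.Sol w) {x y : V} (h : D.T.Adj x y) :
    u x * w y = u y * w x := by
  classical
  let s : Set (V × B) := {q | D.K.Adj (D.ξ q.1) q.2}
  let revF : s → s := fun q => ⟨(D.n q.1.1 q.1.2, D.ξ q.1.1), by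
    change D.K.Adj (D.ξ (D.n q.1.1 q.1.2)) (D.ξ q.1.1)
    rw [D.n_map q.2]
    exact q.2.symm⟩
  have hinv : Function.Involutive revF := by
    intro q
    exact Subtype.ext (Prod.ext (D.n_n q.2) (D.n_map q.2))
  let rev : s ≃ s := hinv.toPerm
  let F : V × B → ℝ := fun q =>
    D.a (D.ξ q.1) q.2 * (u q.1 * w (D.n q.1 q.2) - w q.1 * u (D.n q.1 q.2))
  have hsq : ∀ f : V → ℝ, Summable (fun v => f v ^ 2) →
      Summable (fun q : s => f q.1.1 ^ 2) ∧ Summable (fun q : s => f (D.n q.1.1 q.1.2) ^ 2) := by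
    intro f hf
    have h1 : Summable (fun q : V × B => f q.1 ^ 2 * 1) :=
      Summable.mul_of_nonneg (f := fun v => f v ^ 2) (g := fun _ : B => (1 : ℝ)) hf
        (Summable.of_finite) (fun v => sq_nonneg _) (fun _ => zero_le_one)
    have h2 : Summable (fun q : s => f q.1.1 ^ 2) := by
      have := h1.subtype s
      refine this.congr fun q => ?_
      simp
    refine ⟨h2, ?_⟩
    exact (rev.summable_iff (f := fun q : s => f q.1.1 ^ 2)).2 h2
  obtain ⟨C, hC⟩ : ∃ C : ℝ, ∀ k l, |D.a k l| ≤ C := by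
    refine ⟨∑ k, ∑ l, |D.a k l|, fun k l => ?_⟩
    refine le_trans ?_ (Finset.single_le_sum (f := fun k => ∑ l, |D.a k l|)
      (fun k _ => Finset.sum_nonneg fun l _ => abs_nonneg _) (Finset.mem_univ k))
    exact Finset.single_le_sum (f := fun l => |D.a k l|) (fun l _ => abs_nonneg _)
      (Finset.mem_univ l)
  have hFs : Summable (fun q : s => F q) := by
    obtain ⟨u1, u2⟩ := hsq u hu.1
    obtain ⟨w1, w2⟩ := hsq w hw.1
    refine Summable.of_norm_bounded ((((u1.add u2).add w1).add w2).mul_left C) fun q => ?_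
    rw [Real.norm_eq_abs, abs_mul]
    have h1 := hC (D.ξ q.1.1) q.1.2
    have h2 : |u q.1.1 * w (D.n q.1.1 q.1.2) - w q.1.1 * u (D.n q.1.1 q.1.2)| ≤
        u q.1.1 ^ 2 + u (D.n q.1.1 q.1.2) ^ 2 + w q.1.1 ^ 2 + w (D.n q.1.1 q.1.2) ^ 2 := by
      rw [abs_le]
      constructor <;>
      nlinarith [sq_nonneg (u q.1.1 + w (D.n q.1.1 q.1.2)), sq_nonneg (u q.1.1 - w (D.n q.1.1 q.1.2)),
        sq_nonneg (w q.1.1 + u (D.n q.1.1 q.1.2)), sq_nonneg (w q.1.1 - u (D.n q.1.1 q.1.2)),
        sq_nonneg (u q.1.1), sq_nonneg (w q.1.1), sq_nonneg (u (D.n q.1.1 q.1.2)),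
        sq_nonneg (w (D.n q.1.1 q.1.2))]
    exact mul_le_mul h1 h2 (abs_nonneg _) ((abs_nonneg _).trans h1)
  have hFr : ∀ q : s, F (rev q) = - F q := by
    intro q
    change D.a (D.ξ (D.n q.1.1 q.1.2)) (D.ξ q.1.1) * (u (D.n q.1.1 q.1.2) *
      w (D.n (D.n q.1.1 q.1.2) (D.ξ q.1.1)) - w (D.n q.1.1 q.1.2) *
      u (D.n (D.n q.1.1 q.1.2) (D.ξ q.1.1))) = - (D.a (D.ξ q.1.1) q.1.2 *
      (u q.1.1 * w (D.n q.1.1 q.1.2) - w q.1.1 * u (D.n q.1.1 q.1.2)))
    rw [D.n_n q.2, D.n_map q.2, D.asymm q.1.2 (D.ξ q.1.1)]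
    ring
  let A : Set V := side D.T x y
  have hA : Summable (fun q : s => if q.1.1 ∈ A then F q else 0) := by
    refine Summable.of_norm_bounded hFs.norm fun q => ?_
    split_ifs
    · exact le_rfl
    · simp
  have hA' : Summable (fun q : s => if D.n q.1.1 q.1.2 ∈ A then F q else 0) := by
    refine Summable.of_norm_bounded hFs.norm fun q => ?_
    split_ifs
    · exact le_rfl
    · simp
  have hrow : ∑' q : s, (if q.1.1 ∈ A then F q else 0) = 0 := by
    have h1 := tsum_subtype s (fun q : V × B => if q.1 ∈ A then F q else 0)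
    have h2 : Summable (s.indicator (fun q : V × B => if q.1 ∈ A then F q else 0)) :=
      summable_subtype_iff_indicator.1 hA
    rw [h1, h2.tsum_prod]
    refine (tsum_congr fun v => ?_).trans tsum_zero
    rw [tsum_fintype]
    by_cases hv : v ∈ A
    · have h3 : ∀ k : B, s.indicator (fun q : V × B => if q.1 ∈ A then F q else 0) (v, k) =
          if D.K.Adj (D.ξ v) k then F (v, k) else 0 := by
        intro k
        rw [Set.indicator_apply]
        change (if D.K.Adj (D.ξ v) k then (if v ∈ A then F (v, k) else 0) else 0) = _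
        rw [if_pos hv]
      rw [Finset.sum_congr rfl fun k _ => h3 k, ← Finset.sum_filter]
      have h4 : Finset.univ.filter (fun k => D.K.Adj (D.ξ v) k) = D.N (D.ξ v) := by
        ext k
        simp [N]
      rw [h4]
      have h5 : ∑ k ∈ D.N (D.ξ v), F (v, k) =
          u v * (∑ k ∈ D.N (D.ξ v), D.a (D.ξ v) k * w (D.n v k)) -
          w v * (∑ k ∈ D.N (D.ξ v), D.a (D.ξ v) k * u (D.n v k)) := by
        rw [Finset.mul_sum, Finset.mul_sum, ← Finset.sum_sub_distrib]
        refine Finset.sum_congr rfl fun k _ => ?_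
        change D.a (D.ξ v) k * (u v * w (D.n v k) - w v * u (D.n v k)) = _
        ring
      rw [h5]
      linear_combination u v * hw.2 v - w v * hu.2 v
    · refine Finset.sum_eq_zero fun k _ => ?_
      rw [Set.indicator_apply]
      change (if _ then (if v ∈ A then F (v, k) else 0) else 0) = _
      rw [if_neg hv, ite_self]
  have hrow' : ∑' q : s, (if D.n q.1.1 q.1.2 ∈ A then F q else 0) = 0 := by
    have h1 := rev.tsum_eq (fun q : s => if q.1.1 ∈ A then F q else 0)
    rw [hrow] at h1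
    have h2 : (fun q : s => (if (rev q).1.1 ∈ A then F (rev q) else 0)) =
        fun q : s => - (if D.n q.1.1 q.1.2 ∈ A then F q else 0) := by
      funext q
      rw [hFr]
      change (if D.n q.1.1 q.1.2 ∈ A then - F q else 0) = _
      split_ifs <;> simp
    rw [h2, tsum_neg, neg_eq_zero] at h1
    exact h1
  have hsub := (hA.tsum_sub hA')
  rw [hrow, hrow', sub_zero] at hsub
  have hxy := adj_map D.hc h
  let q1 : s := ⟨(y, D.ξ x), hxy.symm⟩
  let q2 : s := ⟨(x, D.ξ y), hxy⟩
  have hq : q1 ≠ q2 := by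
    intro h1
    have h2 : y = x := congrArg (fun q : s => q.1.1) h1
    exact h.ne h2.symm
  have n1 : D.n y (D.ξ x) = x := D.n_eq h.symm
  have n2 : D.n x (D.ξ y) = y := D.n_eq h
  obtain ⟨hyA, hxA⟩ := side_adj_self D.hT h
  rw [tsum_eq_sum (s := {q1, q2})] at hsub
  · rw [Finset.sum_pair hq] at hsub
    have e1 : (if q1.1.1 ∈ A then F q1 else 0) = F q1 := if_pos hyA
    have e2 : (if D.n q1.1.1 q1.1.2 ∈ A then F q1 else 0) = 0 := by
      refine if_neg ?_
      change D.n y (D.ξ x) ∉ A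
      rw [n1]
      exact hxA
    have e3 : (if q2.1.1 ∈ A then F q2 else 0) = 0 := if_neg hxA
    have e4 : (if D.n q2.1.1 q2.1.2 ∈ A then F q2 else 0) = F q2 := by
      refine if_pos ?_
      change D.n x (D.ξ y) ∈ A
      rw [n2]
      exact hyA
    rw [e1, e2, e3, e4] at hsub
    have f1 : F q1 = D.a (D.ξ y) (D.ξ x) * (u y * w x - w y * u x) := by
      change D.a (D.ξ y) (D.ξ x) * (u y * w (D.n y (D.ξ x)) - w y * u (D.n y (D.ξ x))) = _
      rw [n1]
    have f2 : F q2 = D.a (D.ξ x) (D.ξ y) * (u x * w y - w x * u y) := by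
      change D.a (D.ξ x) (D.ξ y) * (u x * w (D.n x (D.ξ y)) - w x * u (D.n x (D.ξ y))) = _
      rw [n2]
    rw [f1, f2, D.asymm (D.ξ y) (D.ξ x)] at hsub
    have ha := D.apos _ _ hxy
    have h6 : D.a (D.ξ x) (D.ξ y) * (u y * w x - u x * w y) = 0 := by
      linear_combination (1 / 2) * hsub
    rcases mul_eq_zero.1 h6 with h7 | h7
    · exact absurd h7 ha.ne'
    · linarith
  · intro q hq'
    rw [Finset.mem_insert, Finset.mem_singleton, not_or] at hq'
    by_cases c1 : q.1.1 ∈ A <;> by_cases c2 : D.n q.1.1 q.1.2 ∈ A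
    · rw [if_pos c1, if_pos c2, sub_self]
    · exfalso
      obtain ⟨d1, d2⟩ := cross D.hT h (D.n_adj q.2) c1 c2
      refine hq'.1 (Subtype.ext (Prod.ext d1 ?_))
      change q.1.2 = D.ξ x
      rw [← d2, D.n_map q.2]
    · exfalso
      obtain ⟨d1, d2⟩ := cross D.hT h (D.n_adj q.2).symm c2 c1
      refine hq'.2 (Subtype.ext (Prod.ext d2 ?_))
      change q.1.2 = D.ξ y
      rw [← d1, D.n_map q.2]
    · rw [if_neg c1, if_neg c2, sub_self]

end Data

end Pool.Agent.H655.RG
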