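import Pool.Agent.H655.RG3

/-!
# The relations between the masses of the kernel
-/

set_option autoImplicit false

namespace Pool.Agent.H655.RG

open SimpleGraph

namespace Data

variable {V B : Type} [Fintype B] (D : Data V B)

theorem mass_nonneg (f : V → ℝ) (A : Set V) : 0 ≤ mass f A := by
  classical
  unfold mass
  refine tsum_nonneg fun v => ?_
  split_ifs
  · exact sq_nonneg _
  · exact le_rfl

theorem mass_mul (f : V → ℝ) (s : ℝ) (A : Set V) : mass (fun v => s * f v) A = s ^ 2 * mass f A := by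
  classical
  unfold mass
  rw [← tsum_mul_left]
  refine tsum_congr fun v => ?_
  split_ifs
  · ring
  · ring

theorem mass_ge {f : V → ℝ} (hf : Summable (fun v => f v ^ 2)) {A : Set V} {v : V} (hv : v ∈ A) :
    f v ^ 2 ≤ mass f A := by
  classical
  have h := (mass_summable hf A).le_tsum v (fun w _ => by
    split_ifs
    · exact sq_nonneg _
    · exact le_rfl)
  rw [if_pos hv] at h
  unfold mass
  convert h

theorem M_compl {x y : V} (h : D.T.Adj x y) :
    D.M x y + mass (D.e x) (side D.T y x) = D.p x := by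
  rw [D.p_eq]
  exact mass_compl (D.e_sol x).1 _ _ (fun v => not_mem_side D.hT h)

/-- The masses across an edge both of whose ends carry solutions. -/
theorem F2 {x y : V} (h : D.T.Adj x y) (hx : D.p x ≠ 0) (hy : D.p y ≠ 0) :
    D.M x y / D.p x + D.M y x / D.p y = 1 := by
  have hs : ∀ v, D.e y v = (D.e x y / D.p x) * D.e x v := by
    intro v
    symm
    have hsol : D.Sol (fun v => (D.e x y / D.p x) * D.e x v) := by
      have h0 : D.Sol (fun _ => (0 : ℝ)) := by
        refine ⟨by simp, fun x => by simp⟩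
      have := h0.comb D (D.e_sol x) (D.e x y / D.p x)
      simpa using this
    refine D.e_unique hsol (fun u hu => ?_) v
    have h1 : (fun v => (D.e x y / D.p x) * D.e x v * u v) =
        fun v => (D.e x y / D.p x) * (D.e x v * u v) := by
      funext v
      ring
    rw [h1, tsum_mul_left, D.e_repr x hu]
    have h2 := D.wronskian (D.e_sol x) hu h
    change D.p x * u y = D.e x y * u x at h2
    rw [div_mul_eq_mul_div, ← h2]
    field_simp
  have hpy : D.p y = (D.e x y / D.p x) ^ 2 * D.p x := by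
    have h1 := hs y
    change D.p y = _ at h1
    rw [h1]
    field_simp
  have hM : D.M y x = (D.e x y / D.p x) ^ 2 * mass (D.e x) (side D.T y x) := by
    unfold M
    rw [← mass_mul]
    congr 1
    funext v
    exact hs v
  have h3 := D.M_compl h
  have h4 : (D.e x y / D.p x) ^ 2 ≠ 0 := by
    intro h5
    rw [h5, zero_mul] at hpy
    exact hy hpy
  have h6 : D.M y x / D.p y = mass (D.e x) (side D.T y x) / D.p x := by
    rw [hM, hpy, mul_div_mul_left _ _ h4]
  rw [h6, ← add_div, h3, div_self hx]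

open Classical in
/-- The restriction of a function to a set. -/
noncomputable def cut (A : Set V) (u : V → ℝ) : V → ℝ := fun v => if v ∈ A then u v else 0

theorem cut_sol {u : V → ℝ} (hu : D.Sol u) {x y : V} (h : D.T.Adj x y) (hx : u x = 0)
    (hy : u y = 0) : D.Sol (cut (side D.T x y) u) := by
  classical
  refine ⟨?_, fun v => ?_⟩
  · have h1 := mass_summable hu.1 (side D.T x y)
    refine h1.congr fun v => ?_
    unfold cut
    split_ifs <;> simp
  · have hne : ∀ k ∈ D.N (D.ξ v), cut (side D.T x y) u (D.n v k) =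
        if v ∈ side D.T x y then u (D.n v k) else 0 := by
      intro k hk
      have hadj := D.n_adj (D.mem_N.1 hk)
      unfold cut
      by_cases c1 : v ∈ side D.T x y <;> by_cases c2 : D.n v k ∈ side D.T x y
      · rw [if_pos c1, if_pos c2]
      · rw [if_neg c2, if_pos c1]
        obtain ⟨_, d2⟩ := cross D.hT h hadj c1 c2
        rw [d2, hx]
      · rw [if_pos c2, if_neg c1]
        obtain ⟨d1, _⟩ := cross D.hT h hadj.symm c2 c1
        rw [d1, hy]
      · rw [if_neg c1, if_neg c2]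
    rw [Finset.sum_congr rfl fun k hk => by rw [hne k hk]]
    unfold cut
    by_cases c : v ∈ side D.T x y
    · simp only [if_pos c]
      exact hu.2 v
    · simp [if_neg c]

theorem cut_test {u f : V → ℝ} (A : Set V) : ∑' v, f v * cut A u v = ∑' v, cut A f v * u v := by
  classical
  refine tsum_congr fun v => ?_
  unfold cut
  split_ifs <;> simp

/-- The mass in a branch at `y`, when all solutions vanish at `y`. -/
theorem branch_mass {y x₁ x₂ : V} (h₁ : D.T.Adj y x₁) (h₂ : D.T.Adj y x₂) (hne : x₁ ≠ x₂)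
    (hy : D.p y = 0) (h1 : D.p x₁ ≠ 0) :
    mass (D.e x₂) (side D.T y x₁) =
      (D.e x₂ x₁ / D.p x₁) ^ 2 * mass (D.e x₁) (side D.T y x₁) := by
  classical
  set A := side D.T y x₁ with hA
  set s := D.e x₂ x₁ / D.p x₁ with hs
  have hz : D.Sol (fun v => D.e x₂ v + (-s) * D.e x₁ v) :=
    (D.e_sol x₂).comb D (D.e_sol x₁) (-s)
  have hz1 : D.e x₂ x₁ + (-s) * D.e x₁ x₁ = 0 := by
    change D.e x₂ x₁ + (-s) * D.p x₁ = 0
    rw [hs]
    field_simp
    ring
  have hzy : D.e x₂ y + (-s) * D.e x₁ y = 0 := by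
    rw [D.sol_eq_zero hy (D.e_sol x₂), D.sol_eq_zero hy (D.e_sol x₁)]
    ring
  have hc := D.cut_sol hz h₁ hzy hz1
  have t1 := D.e_repr x₁ hc
  have t2 := D.e_repr x₂ hc
  have c1 : cut (side D.T y x₁) (fun v => D.e x₂ v + (-s) * D.e x₁ v) x₁ = 0 := by
    unfold cut
    change (if x₁ ∈ side D.T y x₁ then D.e x₂ x₁ + (-s) * D.e x₁ x₁ else 0) = 0
    rw [hz1, ite_self]
  have hx2 : x₂ ∉ side D.T y x₁ := by
    intro h3
    exact hne (branch_unique D.hT h₁ h₂ h3 (side_adj_self D.hT h₂).1)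
  have c2 : cut (side D.T y x₁) (fun v => D.e x₂ v + (-s) * D.e x₁ v) x₂ = 0 := by
    unfold cut
    rw [if_neg hx2]
  rw [c1] at t1
  rw [c2] at t2
  have m1 := mass_summable (D.e_sol x₁).1 A
  have m2 := mass_summable (D.e_sol x₂).1 A
  have m12 : Summable (fun v => if v ∈ A then D.e x₁ v * D.e x₂ v else 0) := by
    refine Summable.of_norm_bounded (summable_mul (D.e_sol x₁).1 (D.e_sol x₂).1).norm fun v => ?_
    split_ifs
    · exact le_rfl
    · rw [norm_zero]
      exact norm_nonneg _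
  have E1 : (∑' v, if v ∈ A then D.e x₁ v * D.e x₂ v else 0) - s * mass (D.e x₁) A = 0 := by
    unfold mass
    rw [← tsum_mul_left, ← m12.tsum_sub (m1.mul_left s)]
    refine (tsum_congr fun v => ?_).trans t1
    unfold cut
    by_cases hv : v ∈ A
    · rw [if_pos hv, if_pos hv]
      rw [if_pos (show v ∈ side D.T y x₁ from hv)]
      ring
    · rw [if_neg hv, if_neg hv]
      rw [if_neg (show v ∉ side D.T y x₁ from hv)]
      ring
  have E2 : mass (D.e x₂) A - s * (∑' v, if v ∈ A then D.e x₁ v * D.e x₂ v else 0) = 0 := by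
    unfold mass
    rw [← tsum_mul_left, ← m2.tsum_sub (m12.mul_left s)]
    refine (tsum_congr fun v => ?_).trans t2
    unfold cut
    by_cases hv : v ∈ A
    · rw [if_pos hv, if_pos hv]
      rw [if_pos (show v ∈ side D.T y x₁ from hv)]
      ring
    · rw [if_neg hv, if_neg hv]
      rw [if_neg (show v ∉ side D.T y x₁ from hv)]
      ring
  linear_combination E2 + s * E1

theorem branch_pos {y x : V} (h : D.T.Adj y x) (hx : D.p x ≠ 0) :
    0 < mass (D.e x) (side D.T y x) := by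
  have h1 := mass_ge (D.e_sol x).1 (side_adj_self D.hT h).1
  have h2 : 0 < D.e x x ^ 2 := by
    have : D.e x x ≠ 0 := hx
    positivity
  linarith

open Classical in
/-- The masses around a vertex where all solutions vanish. -/
theorem F3 {y : V} (hy : D.p y = 0) (hne : ∃ k ∈ D.N (D.ξ y), D.p (D.n y k) ≠ 0) :
    1 ≤ ∑ k ∈ (D.N (D.ξ y)).filter (fun k => D.p (D.n y k) ≠ 0),
      D.M (D.n y k) y / D.p (D.n y k) := by
  set Q := (D.N (D.ξ y)).filter (fun k => D.p (D.n y k) ≠ 0) with hQ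
  have hQmem : ∀ k ∈ Q, D.T.Adj y (D.n y k) ∧ D.p (D.n y k) ≠ 0 ∧ D.K.Adj (D.ξ y) k := by
    intro k hk
    rw [hQ, Finset.mem_filter, D.mem_N] at hk
    exact ⟨D.n_adj hk.1, hk.2, hk.1⟩
  -- the weights
  let bm : B → ℝ := fun k => mass (D.e (D.n y k)) (side D.T y (D.n y k))
  let z : B → ℝ := fun k => D.a (D.ξ y) k ^ 2 * D.p (D.n y k) ^ 2 / bm k
  have hbm : ∀ k ∈ Q, 0 < bm k := fun k hk => D.branch_pos (hQmem k hk).1 (hQmem k hk).2.1
  have hp : ∀ k ∈ Q, 0 < D.p (D.n y k) := fun k hk =>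
    lt_of_le_of_ne (D.p_nonneg _) (hQmem k hk).2.1.symm
  have ha : ∀ k ∈ Q, 0 < D.a (D.ξ y) k := fun k hk => D.apos _ _ (hQmem k hk).2.2
  have hz : ∀ k ∈ Q, 0 < z k := by
    intro k hk
    have := hbm k hk
    have := hp k hk
    have := ha k hk
    positivity
  have hMp : ∀ k ∈ Q, D.M (D.n y k) y + bm k = D.p (D.n y k) := fun k hk =>
    D.M_compl (hQmem k hk).1.symm
  have hM : ∀ k ∈ Q, 0 ≤ D.M (D.n y k) y := fun k _ => mass_nonneg _ _
  -- the mass of `e j` away from `j`
  have key : ∀ j ∈ Q, ∑ i ∈ Q.erase j, (D.e (D.n y j) (D.n y i) / D.p (D.n y i)) ^ 2 * bm i ≤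
      D.M (D.n y j) y := by
    intro j hj
    have h1 := D.branch_sum (D.e_sol (D.n y j)).1 y
    rw [D.sol_eq_zero hy (D.e_sol (D.n y j)), ← D.p_eq, ← hMp j hj] at h1
    have h2 : ∑ k ∈ Q, mass (D.e (D.n y j)) (side D.T y (D.n y k)) ≤
        ∑ k ∈ D.N (D.ξ y), mass (D.e (D.n y j)) (side D.T y (D.n y k)) :=
      Finset.sum_le_sum_of_subset_of_nonneg (Finset.filter_subset _ _)
        (fun k _ _ => mass_nonneg _ _)
    rw [← Finset.add_sum_erase Q _ hj] at h2
    have h3 : ∑ i ∈ Q.erase j, (D.e (D.n y j) (D.n y i) / D.p (D.n y i)) ^ 2 * bm i =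
        ∑ i ∈ Q.erase j, mass (D.e (D.n y j)) (side D.T y (D.n y i)) := by
      refine Finset.sum_congr rfl fun i hi => ?_
      obtain ⟨hi1, hi2⟩ := Finset.mem_erase.1 hi
      refine (D.branch_mass (hQmem i hi2).1 (hQmem j hj).1 ?_ hy (hQmem i hi2).2.1).symm
      intro h4
      refine hi1 ?_
      rw [← D.n_map (hQmem i hi2).2.2, ← D.n_map (hQmem j hj).2.2, h4]
    rw [h3]
    have h5 : bm j = mass (D.e (D.n y j)) (side D.T y (D.n y j)) := rfl
    linarith
  -- the equation at `y`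
  have heq : ∀ j ∈ Q, D.a (D.ξ y) j * D.p (D.n y j) =
      - ∑ i ∈ Q.erase j, D.a (D.ξ y) i * D.e (D.n y j) (D.n y i) := by
    intro j hj
    have h1 := (D.e_sol (D.n y j)).2 y
    rw [D.sol_eq_zero hy (D.e_sol (D.n y j)), mul_zero, zero_add] at h1
    have h2 : ∑ k ∈ D.N (D.ξ y), D.a (D.ξ y) k * D.e (D.n y j) (D.n y k) =
        ∑ k ∈ Q, D.a (D.ξ y) k * D.e (D.n y j) (D.n y k) := by
      symm
      refine Finset.sum_subset (Finset.filter_subset _ _) fun k hk hk' => ?_
      rw [hQ, Finset.mem_filter, not_and, not_not] at hk'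
      rw [D.sol_eq_zero (hk' hk) (D.e_sol _), mul_zero]
    rw [h2, ← Finset.add_sum_erase Q _ hj] at h1
    have h3 : D.p (D.n y j) = D.e (D.n y j) (D.n y j) := rfl
    rw [h3]
    linarith
  -- the inequality for the weights
  have hzj : ∀ j ∈ Q, z j ≤ D.M (D.n y j) y / D.p (D.n y j) * ∑ i ∈ Q, z i := by
    intro j hj
    have hcs := Finset.sum_mul_sq_le_sq_mul_sq (Q.erase j)
      (fun i => D.e (D.n y j) (D.n y i) / D.p (D.n y i) * Real.sqrt (bm i))
      (fun i => D.a (D.ξ y) i * D.p (D.n y i) / Real.sqrt (bm i))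
    have e1 : ∑ i ∈ Q.erase j, (D.e (D.n y j) (D.n y i) / D.p (D.n y i) * Real.sqrt (bm i)) *
        (D.a (D.ξ y) i * D.p (D.n y i) / Real.sqrt (bm i)) =
        ∑ i ∈ Q.erase j, D.a (D.ξ y) i * D.e (D.n y j) (D.n y i) := by
      refine Finset.sum_congr rfl fun i hi => ?_
      obtain ⟨hi1, hi2⟩ := Finset.mem_erase.1 hi
      have := (hp i hi2).ne'
      have : Real.sqrt (bm i) ≠ 0 := (Real.sqrt_pos.2 (hbm i hi2)).ne'
      field_simp
    have e2 : ∑ i ∈ Q.erase j, (D.e (D.n y j) (D.n y i) / D.p (D.n y i) * Real.sqrt (bm i)) ^ 2 =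
        ∑ i ∈ Q.erase j, (D.e (D.n y j) (D.n y i) / D.p (D.n y i)) ^ 2 * bm i := by
      refine Finset.sum_congr rfl fun i hi => ?_
      obtain ⟨hi1, hi2⟩ := Finset.mem_erase.1 hi
      rw [mul_pow, Real.sq_sqrt (hbm i hi2).le]
    have e3 : ∑ i ∈ Q.erase j, (D.a (D.ξ y) i * D.p (D.n y i) / Real.sqrt (bm i)) ^ 2 =
        ∑ i ∈ Q.erase j, z i := by
      refine Finset.sum_congr rfl fun i hi => ?_
      obtain ⟨hi1, hi2⟩ := Finset.mem_erase.1 hi
      rw [div_pow, Real.sq_sqrt (hbm i hi2).le, mul_pow]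
    rw [e1, e2, e3] at hcs
    have h1 : (D.a (D.ξ y) j * D.p (D.n y j)) ^ 2 ≤
        D.M (D.n y j) y * ∑ i ∈ Q.erase j, z i := by
      rw [heq j hj, neg_sq]
      refine hcs.trans (mul_le_mul_of_nonneg_right (key j hj) ?_)
      exact Finset.sum_nonneg fun i hi => (hz i (Finset.mem_of_mem_erase hi)).le
    have h2 : z j * bm j = (D.a (D.ξ y) j * D.p (D.n y j)) ^ 2 := by
      have := (hbm j hj).ne'
      change D.a (D.ξ y) j ^ 2 * D.p (D.n y j) ^ 2 / bm j * bm j = _
      field_simp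
    rw [← h2] at h1
    have h3 := Finset.add_sum_erase Q z hj
    have h4 : ∑ i ∈ Q.erase j, z i = ∑ i ∈ Q, z i - z j := by linarith
    rw [h4] at h1
    have h5 := hMp j hj
    rw [div_mul_eq_mul_div, le_div_iff₀ (hp j hj), ← h5]
    linarith
  have hQne : Q.Nonempty := by
    obtain ⟨k, hk, hk'⟩ := hne
    exact ⟨k, Finset.mem_filter.2 ⟨hk, hk'⟩⟩
  have hZ : 0 < ∑ i ∈ Q, z i := Finset.sum_pos hz hQne
  have h1 := Finset.sum_le_sum hzj
  rw [← Finset.sum_mul] at h1
  by_contra hlt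
  rw [not_le] at hlt
  have h2 := mul_lt_mul_of_pos_right hlt hZ
  linarith

end Data

end Pool.Agent.H655.RG
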