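import Pool.Agent.H655.RG4

/-!
# Counting for the complete bipartite graph
-/

set_option autoImplicit false

namespace Pool.Agent.H655.RG

open SimpleGraph

open Classical in
/-- The combinatorial core. -/
theorem count {r g : ℕ} (hg : 2 ≤ g) (hr : g < r) (p : Fin r → ℝ) (q : Fin g → ℝ)
    (s : Fin r → Fin g → ℝ) (t : Fin g → Fin r → ℝ) (hp : ∀ i, 0 ≤ p i) (hq : ∀ j, 0 ≤ q j)
    (h1 : ∀ i, p i ≠ 0 → ∑ j, s i j = 1 - p i) (h1' : ∀ j, q j ≠ 0 → ∑ i, t j i = 1 - q j)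
    (h2 : ∀ i j, p i ≠ 0 → q j ≠ 0 → s i j + t j i = 1)
    (h3 : ∀ j, q j = 0 → (∃ i, p i ≠ 0) → 1 ≤ ∑ i ∈ Finset.univ.filter (fun i => p i ≠ 0), s i j)
    (h3' : ∀ i, p i = 0 → (∃ j, q j ≠ 0) → 1 ≤ ∑ j ∈ Finset.univ.filter (fun j => q j ≠ 0), t j i) :
    ∀ j, q j = 0 := by
  by_contra hcon
  rw [not_forall] at hcon
  obtain ⟨j₀, hj₀⟩ := hcon
  set A := Finset.univ.filter (fun i => p i ≠ 0) with hA
  set C := Finset.univ.filter (fun j => q j ≠ 0) with hC
  have hj₀C : j₀ ∈ C := by simp [hC, hj₀]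
  have hAc : A.card ≤ r := by simpa using A.card_le_univ
  have hCc : C.card ≤ g := by simpa using C.card_le_univ
  have hAc' : (Aᶜ).card = r - A.card := by rw [Finset.card_compl, Fintype.card_fin]
  have hCc' : (Cᶜ).card = g - C.card := by rw [Finset.card_compl, Fintype.card_fin]
  have hCpos : 1 ≤ C.card := Finset.card_pos.2 ⟨j₀, hj₀C⟩
  have hmA : ∀ i ∈ A, p i ≠ 0 := fun i hi => by simpa [hA] using hi
  have hmC : ∀ j ∈ C, q j ≠ 0 := fun j hj => by simpa [hC] using hj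
  have hmA' : ∀ i ∈ Aᶜ, p i = 0 := fun i hi => by simpa [hA] using hi
  have hmC' : ∀ j ∈ Cᶜ, q j = 0 := fun j hj => by simpa [hC] using hj
  -- upper bound
  have u1 : ∑ i ∈ A, ∑ j, s i j ≤ A.card := by
    have : ∀ i ∈ A, ∑ j, s i j ≤ 1 := fun i hi => by
      rw [h1 i (hmA i hi)]
      linarith [hp i]
    have := Finset.sum_le_sum this
    simpa using this
  have u2 : ∑ j ∈ C, ∑ i, t j i < C.card := by
    have hlt : ∑ j ∈ C, ∑ i, t j i < ∑ j ∈ C, (1 : ℝ) := by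
      refine Finset.sum_lt_sum_of_nonempty ⟨j₀, hj₀C⟩ fun j hj => ?_
      rw [h1' j (hmC j hj)]
      have := lt_of_le_of_ne (hq j) (hmC j hj).symm
      linarith
    simpa using hlt
  -- lower bounds
  have l1 : ∑ i ∈ A, ∑ j, s i j = ∑ j ∈ C, ∑ i ∈ A, s i j + ∑ j ∈ Cᶜ, ∑ i ∈ A, s i j := by
    rw [Finset.sum_comm, Finset.sum_add_sum_compl]
  have l2 : ∑ j ∈ C, ∑ i, t j i = ∑ i ∈ A, ∑ j ∈ C, t j i + ∑ i ∈ Aᶜ, ∑ j ∈ C, t j i := by
    rw [Finset.sum_comm, Finset.sum_add_sum_compl]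
  have l3 : ∑ j ∈ C, ∑ i ∈ A, s i j + ∑ i ∈ A, ∑ j ∈ C, t j i = (A.card : ℝ) * C.card := by
    rw [Finset.sum_comm, ← Finset.sum_add_distrib]
    rw [Finset.sum_congr rfl (g := fun _ => (C.card : ℝ))]
    · simp
    · intro i hi
      rw [← Finset.sum_add_distrib, Finset.sum_congr rfl (g := fun _ => (1 : ℝ))]
      · simp
      · intro j hj
        exact h2 i j (hmA i hi) (hmC j hj)
  have l4 : ((r - A.card : ℕ) : ℝ) ≤ ∑ i ∈ Aᶜ, ∑ j ∈ C, t j i := by
    have : ∀ i ∈ Aᶜ, (1 : ℝ) ≤ ∑ j ∈ C, t j i := fun i hi => h3' i (hmA' i hi) ⟨j₀, hj₀⟩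
    have := Finset.sum_le_sum this
    rw [← hAc']
    simpa using this
  rw [Nat.cast_sub hAc] at l4
  have hr' : (g : ℝ) + 1 ≤ r := by exact_mod_cast hr
  have hg' : (2 : ℝ) ≤ g := by exact_mod_cast hg
  have hAr : (A.card : ℝ) ≤ r := by exact_mod_cast hAc
  have hCg : (C.card : ℝ) ≤ g := by exact_mod_cast hCc
  have hC1 : (1 : ℝ) ≤ C.card := by exact_mod_cast hCpos
  rcases Nat.eq_zero_or_pos A.card with h0 | h0
  · have hAe : A = ∅ := Finset.card_eq_zero.1 h0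
    rw [h0] at l4
    have e1 : ∑ i ∈ A, ∑ j ∈ C, t j i = 0 := by rw [hAe]; simp
    rw [e1] at l2
    push_cast at l4
    linarith
  · have l5 : ((g - C.card : ℕ) : ℝ) ≤ ∑ j ∈ Cᶜ, ∑ i ∈ A, s i j := by
      obtain ⟨i₀, hi₀⟩ := Finset.card_pos.1 h0
      have : ∀ j ∈ Cᶜ, (1 : ℝ) ≤ ∑ i ∈ A, s i j := fun j hj => h3 j (hmC' j hj) ⟨i₀, hmA i₀ hi₀⟩
      have := Finset.sum_le_sum this
      rw [← hCc']
      simpa using this
    rw [Nat.cast_sub hCc] at l5
    have hA1 : (1 : ℝ) ≤ A.card := by exact_mod_cast h0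
    have hfin : (A.card : ℝ) * C.card + (r - A.card) + (g - C.card) < A.card + C.card := by
      linarith
    have h5 : A.card = 1 ∨ 2 ≤ A.card := by omega
    have h6 : C.card = 1 ∨ 2 ≤ C.card := by omega
    rcases h5 with h5 | h5
    · rw [h5] at hfin
      push_cast at hfin
      linarith
    · rcases h6 with h6 | h6
      · rw [h6] at hfin
        push_cast at hfin
        linarith
      · have h7 : (2 : ℝ) ≤ A.card := by exact_mod_cast h5
        have h8 : (2 : ℝ) ≤ C.card := by exact_mod_cast h6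
        nlinarith [mul_nonneg (sub_nonneg.2 h7) (sub_nonneg.2 h8)]

/-- The main theorem for real functions. -/
theorem real_case {V : Type} {r g : ℕ} (hg : 2 ≤ g) (hr : g < r)
    (D : Data V (Fin r ⊕ Fin g)) (hK : D.K = completeBipartiteGraph (Fin r) (Fin g))
    {u : V → ℝ} (hu : D.Sol u) {x : V} {j : Fin g} (hx : D.ξ x = Sum.inr j) : u x = 0 := by
  classical
  have adj1 : ∀ i j, D.K.Adj (Sum.inl i) (Sum.inr j) := fun i j => by rw [hK]; simp
  have adj2 : ∀ i j, D.K.Adj (Sum.inr j) (Sum.inl i) := fun i j => by rw [hK]; simp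
  have hN1 : ∀ i, D.N (Sum.inl i) = Finset.univ.map ⟨Sum.inr, Sum.inr_injective⟩ := by
    intro i
    ext k
    rw [D.mem_N, hK]
    rcases k with k | k <;> simp
  have hN2 : ∀ j, D.N (Sum.inr j) = Finset.univ.map ⟨Sum.inl, Sum.inl_injective⟩ := by
    intro i
    ext k
    rw [D.mem_N, hK]
    rcases k with k | k <;> simp
  -- the covering is surjective
  have hred : ∀ i : Fin r, ∃ y, D.ξ y = Sum.inl i := by
    intro i
    refine ⟨D.n x (Sum.inl i), D.n_map ?_⟩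
    rw [hx]
    exact adj2 i j
  have hgreen : ∀ j : Fin g, ∃ y, D.ξ y = Sum.inr j := by
    intro j'
    obtain ⟨y, hy⟩ := hred ⟨0, by omega⟩
    refine ⟨D.n y (Sum.inr j'), D.n_map ?_⟩
    rw [hy]
    exact adj1 _ j'
  choose R hR using hred
  choose G hG using hgreen
  have key := count hg hr (fun i => D.p (R i)) (fun j => D.p (G j))
    (fun i j => D.M (R i) (D.n (R i) (Sum.inr j)) / D.p (R i))
    (fun j i => D.M (G j) (D.n (G j) (Sum.inl i)) / D.p (G j))
    (fun i => D.p_nonneg _) (fun j => D.p_nonneg _) ?_ ?_ ?_ ?_ ?_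
  · exact D.sol_eq_zero (by rw [← key j]; exact D.p_fiber (by rw [hx, hG])) hu
  · intro i hi
    have h := D.F1 (R i)
    rw [hR, hN1, Finset.sum_map] at h
    rw [← Finset.sum_div]
    simp only [Function.Embedding.coeFn_mk] at h
    rw [h]
    field_simp
  · intro j hj
    have h := D.F1 (G j)
    rw [hG, hN2, Finset.sum_map] at h
    rw [← Finset.sum_div]
    simp only [Function.Embedding.coeFn_mk] at h
    rw [h]
    field_simp
  · intro i j hi hj
    -- the edge from `R i` to its neighbour over `j`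
    have hk : D.K.Adj (D.ξ (R i)) (Sum.inr j) := by rw [hR]; exact adj1 i j
    have hadj := D.n_adj hk
    have hmap : D.ξ (D.n (R i) (Sum.inr j)) = D.ξ (G j) := by rw [D.n_map hk, hG]
    have hp : D.p (D.n (R i) (Sum.inr j)) = D.p (G j) := D.p_fiber hmap
    have h := D.F2 hadj hi (by rw [hp]; exact hj)
    have hk' : D.K.Adj (D.ξ (D.n (R i) (Sum.inr j))) (Sum.inl i) := by
      rw [D.n_map hk]; exact adj2 i j
    have hM := D.M_fiber hmap hk'
    have hnn := D.n_n hk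
    rw [hR] at hnn
    rw [hnn] at hM
    rw [hM, hp] at h
    exact h
  · rintro j hj ⟨i₀, hi₀⟩
    have hk : ∀ i, D.K.Adj (D.ξ (G j)) (Sum.inl i) := fun i => by rw [hG]; exact adj2 i j
    have hp : ∀ i, D.p (D.n (G j) (Sum.inl i)) = D.p (R i) := fun i =>
      D.p_fiber (by rw [D.n_map (hk i), hR])
    have h := D.F3 (y := G j) hj ⟨Sum.inl i₀, D.mem_N.2 (hk i₀), by rw [hp]; exact hi₀⟩
    rw [hG, hN2] at h
    rw [Finset.sum_filter, Finset.sum_map] at h
    rw [Finset.sum_filter]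
    refine h.trans (le_of_eq (Finset.sum_congr rfl fun i _ => ?_))
    simp only [Function.Embedding.coeFn_mk]
    rw [hp i]
    have hnn := D.n_n (hk i)
    rw [hG] at hnn
    have hk' : D.K.Adj (D.ξ (D.n (G j) (Sum.inl i))) (Sum.inr j) := by
      rw [D.n_map (hk i)]; exact adj1 i j
    have hM := D.M_fiber (x := D.n (G j) (Sum.inl i)) (x' := R i) (by rw [D.n_map (hk i), hR]) hk'
    rw [hnn] at hM
    rw [hM]
  · rintro i hi ⟨j₀, hj₀⟩
    have hk : ∀ j, D.K.Adj (D.ξ (R i)) (Sum.inr j) := fun j => by rw [hR]; exact adj1 i j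
    have hp : ∀ j, D.p (D.n (R i) (Sum.inr j)) = D.p (G j) := fun j =>
      D.p_fiber (by rw [D.n_map (hk j), hG])
    have h := D.F3 (y := R i) hi ⟨Sum.inr j₀, D.mem_N.2 (hk j₀), by rw [hp]; exact hj₀⟩
    rw [hR, hN1] at h
    rw [Finset.sum_filter, Finset.sum_map] at h
    rw [Finset.sum_filter]
    refine h.trans (le_of_eq (Finset.sum_congr rfl fun j _ => ?_))
    simp only [Function.Embedding.coeFn_mk]
    rw [hp j]
    have hnn := D.n_n (hk j)
    rw [hR] at hnn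
    have hk' : D.K.Adj (D.ξ (D.n (R i) (Sum.inr j))) (Sum.inl i) := by
      rw [D.n_map (hk j)]; exact adj2 i j
    have hM := D.M_fiber (x := D.n (R i) (Sum.inr j)) (x' := G j) (by rw [D.n_map (hk j), hG]) hk'
    rw [hnn] at hM
    rw [hM]

end Pool.Agent.H655.RG
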